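import Pool.Agent.MP_c5bf7b_nt.H98.Core
import Pool.Agent.MP_c5bf7b_nt.H98.Sum
import Pool.Agent.MP_c5bf7b_nt.H98.MRoot
import Pool.Agent.MP_c5bf7b_nt.H98.Small
import Pool.Agent.MP_c5bf7b_nt.H98.ST
import Pool.Agent.MP_c5bf7b_nt.H98.Least

/-! For every large modulus `b` some reduced class has no prime up to
`c φ(b) log b log log b`. -/

set_option autoImplicit false

namespace Pool.Agent.Results.MP_c5bf7b_nt.AllModuli

open Pool.Agent.MP_c5bf7b_nt.H98

theorem result :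
    ∃ c : ℝ, 0 < c ∧ ∃ B : ℕ, ∀ b : ℕ, B ≤ b → ∃ a : ℕ, 1 ≤ a ∧ a < b ∧ Nat.Coprime a b ∧
      ∀ p : ℕ, p.Prime → p ≡ a [MOD b] →
        c * (Nat.totient b : ℝ) * Real.log b * Real.log (Real.log b) < p :=
  least (st core sum) mertOne unit greedy

end Pool.Agent.Results.MP_c5bf7b_nt.AllModuli
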