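import Pool.Agent.MP_c5bf7b_nt.H38.BurgAll

set_option autoImplicit false

namespace Pool.Agent.Results.MP_c5bf7b_nt.BurgessAll

theorem result : ∀ ε : ℝ, 0 < ε → ∃ δ C : ℝ, 0 < δ ∧ ∀ (q : ℕ) (χ : DirichletCharacter ℂ q)
    (N : ℕ), 1 ≤ q → χ ≠ 1 → (q : ℝ) ^ (1 / 4 + ε) ≤ N →
    ‖∑ n ∈ Finset.Icc 1 N, χ n‖ ≤ C * N * (q : ℝ) ^ (-δ) := by
  intro ε hε
  obtain ⟨δ, C, h1, -, h⟩ := Pool.Agent.MP_c5bf7b_nt.H38.burg ε hε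
  refine ⟨δ, C, h1, fun q χ N hq hχ hN => ?_⟩
  haveI : NeZero q := ⟨by omega⟩
  exact h q χ N hχ hN

end Pool.Agent.Results.MP_c5bf7b_nt.BurgessAll
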