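import Pool.Agent.MP_c5bf7b_nt.H98.Core
import Pool.Agent.MP_c5bf7b_nt.H98.Sum
import Pool.Agent.MP_c5bf7b_nt.H98.Small
import Pool.Agent.MP_c5bf7b_nt.H98.ST
import Pool.Agent.MP_c5bf7b_nt.H98.Few

/-! For moduli `b` with few prime factors some reduced class has no prime up to
`c φ(b) log b (log₂ b)² log₄ b / (log₃ b)²`. -/

set_option autoImplicit false

namespace Pool.Agent.Results.MP_c5bf7b_nt.FewFactors

open Pool.Agent.MP_c5bf7b_nt.H98

theorem result :
    ∀ κ : ℝ, κ < 1 / 2 → ∃ c : ℝ, 0 < c ∧ ∃ B : ℕ, ∀ b : ℕ, B ≤ b →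
      ((Nat.primeFactors b).card : ℝ) ≤ Real.exp (κ * (Real.log (Real.log b) *
        Real.log (Real.log (Real.log (Real.log b))) / Real.log (Real.log (Real.log b)))) →
      ∃ a : ℕ, 1 ≤ a ∧ a < b ∧ Nat.Coprime a b ∧ ∀ p : ℕ, p.Prime → p ≡ a [MOD b] →
        c * (Nat.totient b : ℝ) * Real.log b * (Real.log (Real.log b) ^ 2 *
          Real.log (Real.log (Real.log (Real.log b))) /
            Real.log (Real.log (Real.log b)) ^ 2) < p :=
  few (st core sum) mertOne unit greedy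

end Pool.Agent.Results.MP_c5bf7b_nt.FewFactors
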