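import Pool.Agent.MP_c5bf7b_nt.H25L.CaAll

set_option autoImplicit false

namespace Pool.Agent.Results.MP_c5bf7b_nt.Linnik

theorem result :
    ∃ c : ℝ, 0 < c ∧ ∃ B : ℕ, ∀ b : ℕ, B ≤ b → ∀ a : ℕ, 1 ≤ a → a < b → Nat.Coprime a b →
      ∃ p : ℕ, p.Prime ∧ p % b = a ∧ (p : ℝ) < c * (b : ℝ) ^ (23 / 8 : ℝ) := by
  have h := Pool.Agent.MP_c5bf7b_nt.H25L.Nm.Ca.lin
  rw [show (Pool.Agent.MP_c5bf7b_nt.H25L.Nm.ml 2775 + 2 * (1 / 20) : ℝ) = 23 / 8 by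
    norm_num [Pool.Agent.MP_c5bf7b_nt.H25L.Nm.ml]] at h
  exact h

end Pool.Agent.Results.MP_c5bf7b_nt.Linnik
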